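import Pool.Agent.Y453.UF.Stm

/-!
# UF-SUM (job 10973, helper96): orthogonal sums of kH + lE8
-/

set_option autoImplicit false

namespace Pool.Agent.Y96.UF

open Pool.Agent.Y453.UF
open Matrix (mulVec)
open scoped Matrix

theorem bd_apply {m : Type} [Fintype m] [DecidableEq m] {k : ℕ} (M : Fin k → Matrix m m ℤ)
    (x y : m × Fin k → ℤ) :
    x ⬝ᵥ (Matrix.blockDiagonal M).mulVec y = ∑ j, ∑ p, ∑ q, x (p, j) * M j p q * y (q, j) := by
  unfold Matrix.mulVec dotProduct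
  simp only [Fintype.sum_prod_type, Matrix.blockDiagonal_apply, ite_mul, zero_mul,
    Finset.sum_ite_eq, Finset.mem_univ, if_true]
  rw [Finset.sum_comm]
  refine Finset.sum_congr rfl fun j _ => Finset.sum_congr rfl fun p _ => ?_
  rw [Finset.mul_sum]
  refine Finset.sum_congr rfl fun q _ => ?_
  ring

theorem gram_apply (k l : ℕ) (s : ℤ) (x y : (Fin 2 × Fin k) ⊕ (Fin 8 × Fin l) → ℤ) :
    x ⬝ᵥ (gram k l s).mulVec y =
      (∑ j, (x (Sum.inl (0, j)) * y (Sum.inl (1, j)) + x (Sum.inl (1, j)) * y (Sum.inl (0, j)))) +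
        ∑ j, ∑ p, ∑ q, x (Sum.inr (p, j)) * (s * CartanMatrix.E₈ p q) * y (Sum.inr (q, j)) := by
  have h1 : x ⬝ᵥ (gram k l s).mulVec y =
      (x ∘ Sum.inl) ⬝ᵥ (Matrix.blockDiagonal fun _ : Fin k => !![0, 1; 1, 0]).mulVec (y ∘ Sum.inl) +
      (x ∘ Sum.inr) ⬝ᵥ (Matrix.blockDiagonal fun _ : Fin l => s • CartanMatrix.E₈).mulVec
        (y ∘ Sum.inr) := by
    unfold Pool.Agent.Y453.UF.gram
    rw [Matrix.fromBlocks_mulVec]
    unfold dotProduct
    rw [Fintype.sum_sum_type]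
    simp
  rw [h1, bd_apply, bd_apply]
  congr 1
  refine Finset.sum_congr rfl fun j _ => ?_
  simp [Fin.sum_univ_two]

/-- the index set of the hyperbolic planes -/
def e1 (k k' k'' : ℕ) : (Fin k ⊕ Fin k') ⊕ Fin k'' ≃ Fin (k + k' + k'') :=
  (Equiv.sumCongr finSumFinEquiv (Equiv.refl _)).trans finSumFinEquiv

/-- the isometry -/
def ff (k l k' l' k'' : ℕ) :
    (((Fin 2 × Fin k) ⊕ (Fin 8 × Fin l) → ℤ) × ((Fin 2 × Fin k') ⊕ (Fin 8 × Fin l') → ℤ) ×
      ((Fin 2 × Fin k'') ⊕ (Fin 8 × Fin 0) → ℤ)) ≃+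
      ((Fin 2 × Fin (k + k' + k'')) ⊕ (Fin 8 × Fin (l + l')) → ℤ) where
  toFun x := Sum.elim
    (fun t => Sum.elim (Sum.elim (fun a => x.1 (Sum.inl (t.1, a))) (fun b => x.2.1 (Sum.inl (t.1, b))))
      (fun c => x.2.2 (Sum.inl (t.1, c))) ((e1 k k' k'').symm t.2))
    (fun t => Sum.elim (fun a => x.1 (Sum.inr (t.1, a))) (fun b => x.2.1 (Sum.inr (t.1, b)))
      ((finSumFinEquiv (m := l) (n := l')).symm t.2))
  invFun z := (Sum.elim (fun t => z (Sum.inl (t.1, e1 k k' k'' (Sum.inl (Sum.inl t.2)))))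
      (fun t => z (Sum.inr (t.1, finSumFinEquiv (Sum.inl t.2)))),
    Sum.elim (fun t => z (Sum.inl (t.1, e1 k k' k'' (Sum.inl (Sum.inr t.2)))))
      (fun t => z (Sum.inr (t.1, finSumFinEquiv (Sum.inr t.2)))),
    Sum.elim (fun t => z (Sum.inl (t.1, e1 k k' k'' (Sum.inr t.2)))) (fun t => t.2.elim0))
  left_inv x := by
    obtain ⟨x, y, z⟩ := x
    refine Prod.ext ?_ (Prod.ext ?_ ?_)
    · funext t
      rcases t with ⟨i, j⟩ | ⟨i, j⟩
      · simp
      · simp
    · funext t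
      rcases t with ⟨i, j⟩ | ⟨i, j⟩
      · simp
      · simp
    · funext t
      rcases t with ⟨i, j⟩ | ⟨i, j⟩
      · simp
      · exact j.elim0
  right_inv z := by
    funext t
    rcases t with ⟨i, j⟩ | ⟨i, j⟩
    · obtain ⟨a, rfl⟩ := (e1 k k' k'').surjective j
      rcases a with (a | a) | a <;> simp
    · obtain ⟨a, rfl⟩ := (finSumFinEquiv (m := l) (n := l')).surjective j
      rcases a with a | a
      · simp
      · simp
  map_add' x y := by
    funext t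
    rcases t with ⟨i, j⟩ | ⟨i, j⟩
    · obtain ⟨a, rfl⟩ := (e1 k k' k'').surjective j
      rcases a with (a | a) | a <;> simp
    · obtain ⟨a, rfl⟩ := (finSumFinEquiv (m := l) (n := l')).surjective j
      rcases a with a | a
      · simp
      · simp

theorem ff_inl (k l k' l' k'' : ℕ) (x) (i : Fin 2) (a) :
    ff k l k' l' k'' x (Sum.inl (i, e1 k k' k'' a)) =
      Sum.elim (Sum.elim (fun a => x.1 (Sum.inl (i, a))) (fun b => x.2.1 (Sum.inl (i, b))))
      (fun c => x.2.2 (Sum.inl (i, c))) a := by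
  show Sum.elim (Sum.elim (fun a => x.1 (Sum.inl (i, a))) (fun b => x.2.1 (Sum.inl (i, b))))
      (fun c => x.2.2 (Sum.inl (i, c))) ((e1 k k' k'').symm (e1 k k' k'' a)) = _
  rw [Equiv.symm_apply_apply]

theorem ff_inr (k l k' l' k'' : ℕ) (x) (i : Fin 8) (a) :
    ff k l k' l' k'' x (Sum.inr (i, finSumFinEquiv a)) =
      Sum.elim (fun a => x.1 (Sum.inr (i, a))) (fun b => x.2.1 (Sum.inr (i, b))) a := by
  show Sum.elim (fun a => x.1 (Sum.inr (i, a))) (fun b => x.2.1 (Sum.inr (i, b)))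
      ((finSumFinEquiv (m := l) (n := l')).symm (finSumFinEquiv a)) = _
  rw [Equiv.symm_apply_apply]

theorem sum_gram : S_SUM := by
  intro k l k' l' k'' s
  refine ⟨ff k l k' l' k'', fun x y => ?_⟩
  rw [gram_apply, gram_apply, gram_apply, gram_apply]
  rw [← (e1 k k' k'').sum_comp, ← (finSumFinEquiv (m := l) (n := l')).sum_comp]
  simp only [ff_inl, ff_inr, Fintype.sum_sum_type, Sum.elim_inl, Sum.elim_inr]
  simp only [Finset.univ_eq_empty, Finset.sum_empty, add_zero]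
  ring

end Pool.Agent.Y96.UF
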